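import Mathlib
import Pool.Agent.N290.RI.Stm

/-!
# Cut-offs in the plane (`RI/D0`)
-/

set_option autoImplicit false

open Complex MeasureTheory Set Filter Topology

namespace Pool.Agent.N614.RI

open Pool.Agent.N290.RI

theorem D0 : Pool.Agent.N290.RI.D0 := by
  intro δ hδ
  have h4 : (0 : ℝ) < δ / 4 := by positivity
  have h42 : δ / 4 < δ / 2 := by linarith
  let b : ContDiffBump (0 : ℂ) := ⟨δ / 4, δ / 2, h4, h42⟩
  have hb4 : b.rIn = δ / 4 := rfl
  have hb2 : b.rOut = δ / 2 := rfl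
  let χ : ℂ → ℂ := fun w => ((b w : ℝ) : ℂ)
  have hb : ContDiff ℝ 2 (fun w : ℂ => b w) := b.contDiff
  have hχ : ContDiff ℝ 2 χ := Complex.ofRealCLM.contDiff.comp hb
  let ψ : ℂ → ℂ := fun w => db1 χ w / w
  have hχ' : ContDiff ℝ 1 (fderiv ℝ χ) := hχ.fderiv_right (by norm_num)
  have hdb : ContDiff ℝ 1 (db1 χ) := by
    unfold db1
    have e1 : ContDiff ℝ 1 (fun z : ℂ => fderiv ℝ χ z 1) := hχ'.clm_apply contDiff_const
    have e2 : ContDiff ℝ 1 (fun z : ℂ => fderiv ℝ χ z I) := hχ'.clm_apply contDiff_const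
    exact (e1.add (contDiff_const.mul e2)).div_const 2
  -- χ is one near points of the small ball
  have hin : ∀ w : ℂ, ‖w‖ ≤ δ / 4 → χ w = 1 := by
    intro w hw
    have : b w = 1 := b.one_of_mem_closedBall (by simpa [hb4] using hw)
    simp [χ, this]
  have hout : ∀ w : ℂ, δ / 2 ≤ ‖w‖ → χ w = 0 := by
    intro w hw
    have : b w = 0 := b.zero_of_le_dist (by simpa [hb2] using hw)
    simp [χ, this]
  have hdin : ∀ w : ℂ, ‖w‖ < δ / 4 → db1 χ w = 0 := by
    intro w hw
    have hev : χ =ᶠ[𝓝 w] fun _ => (1 : ℂ) := by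
      filter_upwards [Metric.isOpen_ball.mem_nhds (show w ∈ Metric.ball (0 : ℂ) (δ / 4) by
        simpa using hw)] with u hu
      exact hin u (by simpa using (Metric.mem_ball.1 hu).le)
    unfold db1
    rw [hev.fderiv_eq]
    simp
  have hdout : ∀ w : ℂ, δ / 2 ≤ ‖w‖ → db1 χ w = 0 := by
    intro w hw
    have hmin : IsLocalMin (fun w : ℂ => b w) w := by
      refine Filter.Eventually.of_forall fun u => ?_
      have : b w = 0 := b.zero_of_le_dist (by simpa [hb2] using hw)
      simp only [this]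
      exact b.nonneg
    have h0 : fderiv ℝ (fun w : ℂ => b w) w = 0 := hmin.fderiv_eq_zero
    have hd : HasFDerivAt (fun w : ℂ => b w) (0 : ℂ →L[ℝ] ℝ) w := by
      rw [← h0]
      exact (hb.differentiable (by norm_num) w).hasFDerivAt
    have hd2 : HasFDerivAt χ (Complex.ofRealCLM.comp (0 : ℂ →L[ℝ] ℝ)) w :=
      Complex.ofRealCLM.hasFDerivAt.comp w hd
    unfold db1
    rw [hd2.fderiv]
    simp
  have hψ0 : ∀ w : ℂ, ‖w‖ < δ / 4 → ψ w = 0 := by
    intro w hw
    simp [ψ, hdin w hw]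
  have hψ2 : ∀ w : ℂ, δ / 2 ≤ ‖w‖ → ψ w = 0 := by
    intro w hw
    simp [ψ, hdout w hw]
  have hψ : ContDiff ℝ 1 ψ := by
    rw [contDiff_iff_contDiffAt]
    intro w
    by_cases hw : w = 0
    · subst hw
      have hev : ψ =ᶠ[𝓝 0] fun _ => (0 : ℂ) := by
        filter_upwards [Metric.ball_mem_nhds (0 : ℂ) h4] with u hu
        exact hψ0 u (by simpa using hu)
      exact contDiffAt_const.congr_of_eventuallyEq hev
    · have hinv : ContDiffAt ℝ 1 (fun u : ℂ => u⁻¹) w :=
        (contDiffAt_id (𝕜 := ℝ) (n := 1) (x := w)).inv hw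
      have := (hdb.contDiffAt (x := w)).mul hinv
      simpa [ψ, div_eq_mul_inv] using this
  have hsupp : HasCompactSupport ψ := by
    refine HasCompactSupport.intro (isCompact_closedBall (0 : ℂ) (δ / 2)) ?_
    intro w hw
    refine hψ2 w ?_
    have : ¬ ‖w‖ ≤ δ / 2 := by simpa using hw
    exact (not_le.1 this).le
  obtain ⟨C1, hC1⟩ := hψ.continuous.bounded_above_of_compact_support hsupp
  obtain ⟨C2, hC2⟩ := (hψ.continuous_fderiv (by norm_num)).bounded_above_of_compact_support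
    (hsupp.fderiv (𝕜 := ℝ))
  refine ⟨χ, ψ, max C1 C2, hχ.of_le (by norm_num), hψ, hin, hout, ?_, hψ2, ?_, ?_, ?_⟩
  · intro w
    simp only [χ, Complex.norm_real, Real.norm_eq_abs, abs_of_nonneg b.nonneg]
    exact b.le_one
  · intro w
    exact (hC1 w).trans (le_max_left _ _)
  · intro w η
    refine ((fderiv ℝ ψ w).le_opNorm η).trans ?_
    exact mul_le_mul_of_nonneg_right ((hC2 w).trans (le_max_right _ _)) (norm_nonneg _)
  · intro w
    by_cases hw : w = 0
    · subst hw
      rw [hdin 0 (by simpa using h4)]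
      simp
    · simp only [ψ]
      field_simp

end Pool.Agent.N614.RI
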